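import Pool.Agent.Helper91.LC.Spec

/-!
# Project LC, piece LC-9: the weighted mean inequality at the centre `0`
-/

namespace Pool.Agent.Helper49.LC

open Complex Metric Set
open Pool.Agent.Helper91.LC

theorem neg_log_le {u : ℝ} (h2 : u ≤ 0.0106924) :
    - Real.log (1 - u) ≤ u + 0.5109377 * u ^ 2 := by
  rcases le_or_gt u 0 with hu | hu
  · have h3 := Real.le_log_one_add_of_nonneg (x := -u) (by linarith)
    have h4 : (1 : ℝ) + -u = 1 - u := by ring
    rw [h4] at h3
    have h5 : (0 : ℝ) < -u + 2 := by linarith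
    have h6 : 2 * -u / (-u + 2) + u + u ^ 2 / 2 = (-u) ^ 2 * (-u) / (2 * (-u + 2)) := by
      field_simp
      ring
    have h7 : 0 ≤ (-u) ^ 2 * (-u) / (2 * (-u + 2)) := by
      apply div_nonneg
      · exact mul_nonneg (sq_nonneg _) (by linarith)
      · linarith
    nlinarith [sq_nonneg u]
  · have h3 := Real.abs_log_sub_add_sum_range_le (x := u) (by rw [abs_lt]; constructor <;> linarith) 2
    rw [abs_of_pos hu] at h3
    simp only [Finset.sum_range_succ, Finset.sum_range_zero] at h3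
    norm_num at h3
    have h4 := (abs_le.mp h3).1
    have h5 : u ^ 3 / (1 - u) ≤ 0.0109377 * u ^ 2 := by
      rw [div_le_iff₀ (by linarith)]
      have : 0 ≤ u ^ 2 := sq_nonneg u
      nlinarith
    linarith

theorem kappa {s : ℝ} (h1 : s ≤ 0.09973) :
    - Real.log (1 - s) ≤ - Real.log 0.91 + (s - 0.09) / 0.91 + 0.617 * (s - 0.09) ^ 2 := by
  have h2 : 1 - s = 0.91 * (1 - (s - 0.09) / 0.91) := by
    field_simp
    ring
  have h3 : 0 < 1 - (s - 0.09) / 0.91 := by
    have : (s - 0.09) / 0.91 < 1 := by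
      rw [div_lt_one (by norm_num)]
      linarith
    linarith
  rw [h2, Real.log_mul (by norm_num) h3.ne']
  have h4 := neg_log_le (u := (s - 0.09) / 0.91)
    (by rw [div_le_iff₀ (by norm_num)]; linarith)
  have h5 : 0.5109377 * ((s - 0.09) / 0.91) ^ 2 = 0.617 * (s - 0.09) ^ 2 := by
    rw [div_pow]
    field_simp
    norm_num
    ring
  linarith

theorem log91 : - Real.log 0.91 ≤ 0.09433 := by
  have h := Real.abs_log_sub_add_sum_range_le (x := 0.09) (by rw [abs_lt]; norm_num) 4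
  rw [abs_of_pos (by norm_num : (0 : ℝ) < 0.09)] at h
  simp only [Finset.sum_range_succ, Finset.sum_range_zero] at h
  norm_num at h
  have h4 := (abs_le.mp h).1
  norm_num at h4 ⊢
  linarith

/-- the weight -/
theorem weight_mem {v : ℂ} (hv : ‖v‖ = 0.3) :
    0 ≤ 1 + (v ^ 2).re / 0.09 ∧ 1 + (v ^ 2).re / 0.09 ≤ 2 := by
  have h1 := Complex.abs_re_le_norm (v ^ 2)
  rw [norm_pow, hv] at h1
  have h2 := abs_le.mp h1
  constructor
  · have : -1 ≤ (v ^ 2).re / 0.09 := by
      rw [le_div_iff₀ (by norm_num)]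
      linarith [h2.1]
    linarith
  · have : (v ^ 2).re / 0.09 ≤ 1 := by
      rw [div_le_iff₀ (by norm_num)]
      linarith [h2.2]
    linarith

theorem pointwise {f : ℂ → ℂ} {v : ℂ} (hv : ‖v‖ = 0.3) (hf : ‖f v‖ ≤ 0.3158)
    (hη : ‖f v - v‖ ≤ 0.03144) :
    (1 + (v ^ 2).re / 0.09) * (- Real.log (1 - ‖f v‖ ^ 2)) ≤
      0.09433 * (1 + (v ^ 2).re / 0.09) +
      (1 / 0.91) * ((1 + (v ^ 2).re / 0.09) * (2 * (v * (starRingEnd ℂ) (f v - v)).re)) +
      2.692 * ‖f v - v‖ ^ 2 := by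
  obtain ⟨hW0, hW2⟩ := weight_mem hv
  set W := 1 + (v ^ 2).re / 0.09 with hW
  set a := 2 * (v * (starRingEnd ℂ) (f v - v)).re with ha
  set η := ‖f v - v‖ with hη'
  have hη0 : 0 ≤ η := norm_nonneg _
  have hs : ‖f v‖ ^ 2 = 0.09 + a + η ^ 2 := by
    have h1 : f v = v + (f v - v) := by ring
    have h2 : ‖f v‖ ^ 2 = Complex.normSq (v + (f v - v)) := by
      rw [← h1, Complex.normSq_eq_norm_sq]
    rw [h2, Complex.normSq_add, Complex.normSq_eq_norm_sq, Complex.normSq_eq_norm_sq, hv]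
    ring
  have haη : |a| ≤ 0.6 * η := by
    have h1 := Complex.abs_re_le_norm (v * (starRingEnd ℂ) (f v - v))
    rw [norm_mul, hv, Complex.norm_conj] at h1
    rw [ha, abs_mul, abs_two]
    linarith
  have hsle : ‖f v‖ ^ 2 ≤ 0.09973 := by
    have := pow_le_pow_left₀ (norm_nonneg _) hf 2
    linarith
  have hk := kappa hsle
  have hl := log91
  rw [hs] at hk ⊢
  have hsq : (0.09 + a + η ^ 2 - 0.09) ^ 2 ≤ 0.3988 * η ^ 2 := by
    have h1 : |0.09 + a + η ^ 2 - 0.09| ≤ 0.6315 * η := by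
      have h2 : 0.09 + a + η ^ 2 - 0.09 = a + η ^ 2 := by ring
      rw [h2]
      refine (abs_add_le _ _).trans ?_
      rw [abs_of_nonneg (sq_nonneg η)]
      nlinarith
    have h3 := pow_le_pow_left₀ (abs_nonneg _) h1 2
    rw [sq_abs] at h3
    nlinarith [sq_nonneg η]
  have hk2 : - Real.log (1 - (0.09 + a + η ^ 2)) ≤ 0.09433 + a / 0.91 + 1.346 * η ^ 2 := by
    have h4 : (0.09 + a + η ^ 2 - 0.09) / 0.91 = a / 0.91 + η ^ 2 / 0.91 := by ring
    rw [h4] at hk
    have h5 : η ^ 2 / 0.91 ≤ 1.0990 * η ^ 2 := by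
      rw [div_le_iff₀ (by norm_num)]
      nlinarith [sq_nonneg η]
    nlinarith [sq_nonneg η]
  have h6 := mul_le_mul_of_nonneg_left hk2 hW0
  have h7 : W * (1.346 * η ^ 2) ≤ 2.692 * η ^ 2 := by nlinarith [sq_nonneg η]
  calc W * (- Real.log (1 - (0.09 + a + η ^ 2))) ≤ W * (0.09433 + a / 0.91 + 1.346 * η ^ 2) := h6
    _ = 0.09433 * W + (1 / 0.91) * (W * a) + W * (1.346 * η ^ 2) := by ring
    _ ≤ _ := by linarith

/-- LC-9 -/
theorem mean0 {F f : ℂ → ℂ} (hG : Good F) (hI : Inv F f) :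
    Real.circleAverage (fun v => (1 + (v ^ 2).re / 0.09) * P F (f v)) 0 0.3 ≤ 0.1433 := by
  obtain ⟨h, hh, h0, h1, h2, hexp⟩ := Spec.exists_log hG hI
  have h3 : (0.3 : ℝ) < √3 / 4 := by
    rw [lt_div_iff₀ (by norm_num)]
    apply Real.lt_sqrt_of_sq_lt
    norm_num
  have hball : ∀ v ∈ sphere (0 : ℂ) |(0.3 : ℝ)|, ‖v‖ = 0.3 ∧ v ∈ ball (0 : ℂ) (√3 / 4) := by
    intro v hv
    rw [mem_sphere_zero_iff_norm, abs_of_pos (by norm_num)] at hv
    refine ⟨hv, ?_⟩
    rw [mem_ball_zero_iff, hv]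
    exact h3
  have hball' : ∀ v ∈ sphere (0 : ℂ) (0.3 : ℝ), ‖v‖ = 0.3 ∧ v ∈ ball (0 : ℂ) (√3 / 4) := by
    intro v hv
    apply hball
    rwa [abs_of_pos (by norm_num)]
  have hWc : Continuous fun v : ℂ => 1 + (v ^ 2).re / 0.09 := by fun_prop
  have hfc : ContinuousOn f (sphere (0 : ℂ) 0.3) := fun v hv =>
    (hI.diff.continuousOn.mono fun w hw => (hball' w hw).2) v hv
  have hhc : ContinuousOn h (sphere (0 : ℂ) 0.3) := fun v hv =>
    (hh.continuousOn.mono fun w hw => (hball' w hw).2) v hv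
  have hpos : ∀ v ∈ sphere (0 : ℂ) 0.3, 0 < 1 - ‖f v‖ ^ 2 := by
    intro v hv
    have h4 := Spec.f_le_30 hG hI (hball' v hv).1.le
    have h5 := pow_le_pow_left₀ (norm_nonneg _) h4 2
    linarith
  -- rewriting
  have hrew : Real.circleAverage (fun v => (1 + (v ^ 2).re / 0.09) * P F (f v)) 0 0.3 =
      Real.circleAverage (fun v => (1 + (v ^ 2).re / 0.09) * (h v).re +
        (1 + (v ^ 2).re / 0.09) * (- Real.log (1 - ‖f v‖ ^ 2))) 0 0.3 := by
    apply Real.circleAverage_congr_sphere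
    intro v hv
    obtain ⟨-, hv2⟩ := hball v hv
    simp only
    rw [Spec.P_eq hG hI hv2, ← hexp v hv2, Complex.norm_exp, Real.log_exp]
    ring
  have hc1 : CircleIntegrable (fun v => (1 + (v ^ 2).re / 0.09) * (h v).re) 0 0.3 := by
    apply ContinuousOn.circleIntegrable (by norm_num)
    exact hWc.continuousOn.mul (Complex.continuous_re.comp_continuousOn hhc)
  have hc2 : CircleIntegrable (fun v => (1 + (v ^ 2).re / 0.09) *
      (- Real.log (1 - ‖f v‖ ^ 2))) 0 0.3 := by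
    apply ContinuousOn.circleIntegrable (by norm_num)
    refine hWc.continuousOn.mul (ContinuousOn.neg (ContinuousOn.log ?_ fun v hv => (hpos v hv).ne'))
    exact continuousOn_const.sub (hfc.norm.pow 2)
  have hc3 : CircleIntegrable (fun v : ℂ => 0.09433 * (1 + (v ^ 2).re / 0.09)) 0 0.3 := by
    apply ContinuousOn.circleIntegrable (by norm_num)
    exact (hWc.const_mul _).continuousOn
  have hc4' : CircleIntegrable (fun v => ((1 + (v ^ 2).re / 0.09) *
      (2 * (v * (starRingEnd ℂ) (f v - v)).re))) 0 0.3 := by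
    apply ContinuousOn.circleIntegrable (by norm_num)
    refine hWc.continuousOn.mul (continuousOn_const.mul
      (Complex.continuous_re.comp_continuousOn (continuousOn_id.mul
        (Complex.continuous_conj.comp_continuousOn (hfc.sub continuousOn_id)))))
  have hc4 : CircleIntegrable (fun v => (1 / 0.91) * ((1 + (v ^ 2).re / 0.09) *
      (2 * (v * (starRingEnd ℂ) (f v - v)).re))) 0 0.3 := by
    apply ContinuousOn.circleIntegrable (by norm_num)
    refine continuousOn_const.mul (hWc.continuousOn.mul (continuousOn_const.mul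
      (Complex.continuous_re.comp_continuousOn (continuousOn_id.mul
        (Complex.continuous_conj.comp_continuousOn (hfc.sub continuousOn_id))))))
  have hc5 : CircleIntegrable (fun v => 2.692 * ‖f v - v‖ ^ 2) 0 0.3 := by
    apply ContinuousOn.circleIntegrable (by norm_num)
    exact continuousOn_const.mul ((hfc.sub continuousOn_id).norm.pow 2)
  have hc34 : CircleIntegrable (fun v => 0.09433 * (1 + (v ^ 2).re / 0.09) +
      (1 / 0.91) * ((1 + (v ^ 2).re / 0.09) *
      (2 * (v * (starRingEnd ℂ) (f v - v)).re))) 0 0.3 := hc3.add hc4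
  -- the four means
  have m1 : Real.circleAverage (fun v => (1 + (v ^ 2).re / 0.09) * (h v).re) 0 0.3 ≤ 0.045 := by
    rw [Spec.mean_W h3 hh, h0]
    have h4 := (Complex.re_le_norm _).trans h2
    simp only [Complex.zero_re]
    linarith
  have m2 : Real.circleAverage (fun v : ℂ => 0.09433 * (1 + (v ^ 2).re / 0.09)) 0 0.3 =
      0.09433 := by
    have h4 := Spec.mean_W (g := fun _ => 1) h3 (differentiableOn_const _)
    have h5 : Real.circleAverage (fun v : ℂ => (1 + (v ^ 2).re / 0.09)) 0 0.3 = 1 := by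
      have h6 : deriv (deriv fun _ : ℂ => (1 : ℂ)) 0 = 0 := by
        have h7 : (deriv fun _ : ℂ => (1 : ℂ)) = fun _ => 0 := by
          funext z
          exact deriv_const z 1
        rw [h7]
        exact deriv_const 0 0
      rw [h6] at h4
      simpa using h4
    have h8 := Real.circleAverage_fun_smul (𝕜 := ℝ) (a := (0.09433 : ℝ)) (c := (0 : ℂ)) (R := 0.3)
      (f := fun v : ℂ => 1 + (v ^ 2).re / 0.09)
    simp only [smul_eq_mul] at h8
    rw [h8, h5, mul_one]
  have m3 : Real.circleAverage (fun v => (1 / 0.91) * ((1 + (v ^ 2).re / 0.09) *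
      (2 * (v * (starRingEnd ℂ) (f v - v)).re))) 0 0.3 ≤ 1 / 0.91 * 0.0027 := by
    have h8 := Real.circleAverage_fun_smul (𝕜 := ℝ) (a := (1 / 0.91 : ℝ)) (c := (0 : ℂ)) (R := 0.3)
      (f := fun v => ((1 + (v ^ 2).re / 0.09) * (2 * (v * (starRingEnd ℂ) (f v - v)).re)))
    simp only [smul_eq_mul] at h8
    rw [h8]
    exact mul_le_mul_of_nonneg_left (Spec.mean_W_eta hG hI) (by norm_num)
  have m4 : Real.circleAverage (fun v => 2.692 * ‖f v - v‖ ^ 2) 0 0.3 ≤ 2.692 * 0.000352 := by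
    have h8 := Real.circleAverage_fun_smul (𝕜 := ℝ) (a := (2.692 : ℝ)) (c := (0 : ℂ)) (R := 0.3)
      (f := fun v => ‖f v - v‖ ^ 2)
    simp only [smul_eq_mul] at h8
    rw [h8]
    exact mul_le_mul_of_nonneg_left (Spec.eta_sq hG hI) (by norm_num)
  have m5 : Real.circleAverage (fun v => (1 + (v ^ 2).re / 0.09) *
      (- Real.log (1 - ‖f v‖ ^ 2))) 0 0.3 ≤
      Real.circleAverage (fun v => (0.09433 * (1 + (v ^ 2).re / 0.09) +
      (1 / 0.91) * ((1 + (v ^ 2).re / 0.09) *
      (2 * (v * (starRingEnd ℂ) (f v - v)).re))) + 2.692 * ‖f v - v‖ ^ 2) 0 0.3 := by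
    apply Real.circleAverage_mono hc2 (hc34.add hc5)
    intro v hv
    obtain ⟨hv1, -⟩ := hball v hv
    exact pointwise hv1 (Spec.f_le_30 hG hI hv1.le) (Spec.eta_le_30 hG hI hv1.le)
  rw [hrew, Real.circleAverage_fun_add hc1 hc2]
  rw [Real.circleAverage_fun_add hc34 hc5, Real.circleAverage_fun_add hc3 hc4, m2] at m5
  norm_num at m1 m3 m4 m5 ⊢
  linarith

end Pool.Agent.Helper49.LC
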